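import Pool.Agent.Helper95K9.SM.Sep

/-!
# The leaves NOB, UNI and ABS
-/

set_option autoImplicit false
set_option linter.unusedSectionVars false

namespace Pool.Agent.Helper95K9.SM

open Finset Equiv
open Pool.Agent.TH268.PD (ret top frac ret_spec FirstRet)

theorem alt_sum (M : ℕ) : ∑ m ∈ range (M + 1), (M.choose m : ℝ) * ((-1) ^ m / ((m : ℝ) + 1)) =
    1 / ((M : ℝ) + 1) := by
  have hM : (0 : ℝ) < (M : ℝ) + 1 := by positivity
  have h1 : ∀ m ∈ range (M + 1), (M.choose m : ℝ) * ((-1) ^ m / ((m : ℝ) + 1)) =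
      -(((-1) ^ (m + 1) * ((M + 1).choose (m + 1) : ℝ)) / ((M : ℝ) + 1)) := by
    intro m _
    have h2 : ((M : ℝ) + 1) * (M.choose m : ℝ) = ((M + 1).choose (m + 1) : ℝ) * ((m : ℝ) + 1) := by
      exact_mod_cast Nat.add_one_mul_choose_eq M m
    have hm : (0 : ℝ) < (m : ℝ) + 1 := by positivity
    field_simp
    rw [pow_succ]
    linear_combination (-1 : ℝ) ^ m * h2
  rw [Finset.sum_congr rfl h1, Finset.sum_neg_distrib, ← Finset.sum_div]
  have h3 : ∑ j ∈ range (M + 1 + 1), (-1 : ℝ) ^ j * ((M + 1).choose j : ℝ) = 0 := by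
    have := Int.alternating_sum_range_choose_of_ne (n := M + 1) (by omega)
    exact_mod_cast this
  rw [Finset.sum_range_succ'] at h3
  have h4 : ∑ m ∈ range (M + 1), (-1 : ℝ) ^ (m + 1) * ((M + 1).choose (m + 1) : ℝ) = -1 := by
    simp only [pow_zero, Nat.choose_zero_right, Nat.cast_one, mul_one] at h3
    linarith
  rw [h4]
  field_simp

section

variable {V : Type} [Fintype V] [DecidableEq V]

theorem nob : S_NOB := by
  intro V _ _ ν hν M x b δ hδ h
  classical
  have h1 : ∀ g : Perm V, (if ∀ j, ¬ g.SameCycle x (b j) then (1 : ℝ) else 0) =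
      ∑ S : Finset (Fin M), (-1) ^ S.card * (if ∀ j ∈ S, g.SameCycle x (b j) then (1 : ℝ) else 0) := by
    intro g
    have e1 : (if ∀ j, ¬ g.SameCycle x (b j) then (1 : ℝ) else 0) =
        ∏ j : Fin M, (1 + -(if g.SameCycle x (b j) then (1 : ℝ) else 0)) := by
      by_cases hg : ∀ j, ¬ g.SameCycle x (b j)
      · rw [if_pos hg, Finset.prod_eq_one]
        intro j _
        rw [if_neg (hg j)]; norm_num
      · rw [if_neg hg]
        push Not at hg
        obtain ⟨j, hj⟩ := hg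
        symm
        apply Finset.prod_eq_zero (Finset.mem_univ j)
        rw [if_pos hj]; norm_num
    rw [e1, Finset.prod_one_add, Finset.powerset_univ]
    refine Finset.sum_congr rfl fun S _ => ?_
    rw [Finset.prod_neg]
    congr 1
    by_cases hS : ∀ j ∈ S, g.SameCycle x (b j)
    · rw [if_pos hS, Finset.prod_eq_one]
      intro j hj
      rw [if_pos (hS j hj)]
    · rw [if_neg hS]
      push Not at hS
      obtain ⟨j, hj, hj'⟩ := hS
      apply Finset.prod_eq_zero hj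
      rw [if_neg hj']
  have h2 : Pr ν (fun g => ∀ j, ¬ g.SameCycle x (b j)) =
      ∑ S : Finset (Fin M), (-1) ^ S.card * Pr ν (fun g => ∀ j ∈ S, g.SameCycle x (b j)) := by
    rw [Pr_eq]
    simp only [h1]
    simp only [Finset.mul_sum]
    rw [Finset.sum_comm]
    refine Finset.sum_congr rfl fun S _ => ?_
    rw [Pr_eq, Finset.mul_sum]
    refine Finset.sum_congr rfl fun g _ => ?_
    ring
  have h3 : ∑ S : Finset (Fin M), (-1 : ℝ) ^ S.card * (1 / ((S.card : ℝ) + 1)) =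
      1 / ((M : ℝ) + 1) := by
    rw [← alt_sum M]
    have := Finset.sum_powerset_apply_card (fun m => (-1 : ℝ) ^ m * (1 / ((m : ℝ) + 1)))
      (x := (Finset.univ : Finset (Fin M)))
    rw [Finset.powerset_univ, Finset.card_univ, Fintype.card_fin] at this
    rw [this]
    refine Finset.sum_congr rfl fun m _ => ?_
    rw [nsmul_eq_mul]
    ring
  have h4 : |Pr ν (fun g => ∀ j, ¬ g.SameCycle x (b j)) - 1 / ((M : ℝ) + 1)| ≤ 2 ^ M * δ := by
    rw [h2, ← h3, ← Finset.sum_sub_distrib]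
    refine (Finset.abs_sum_le_sum_abs _ _).trans ?_
    calc ∑ S : Finset (Fin M), |(-1 : ℝ) ^ S.card * Pr ν (fun g => ∀ j ∈ S, g.SameCycle x (b j)) -
          (-1) ^ S.card * (1 / ((S.card : ℝ) + 1))| ≤ ∑ _S : Finset (Fin M), δ := by
          refine Finset.sum_le_sum fun S _ => ?_
          rw [← mul_sub, abs_mul, abs_pow, abs_neg, abs_one, one_pow, one_mul]
          exact h S
      _ = 2 ^ M * δ := by
          rw [Finset.sum_const, Finset.card_univ, Fintype.card_finset, Fintype.card_fin,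
            nsmul_eq_mul]
          push_cast
          ring
  linarith [(abs_le.1 h4).2]

theorem uni : S_UNI := by
  intro V _ _ k c hc G _
  have hk : (0 : ℝ) < (k.factorial : ℝ) := by exact_mod_cast Nat.factorial_pos k
  have hV : (0 : ℝ) < ((Fintype.card V).factorial : ℝ) := by
    exact_mod_cast Nat.factorial_pos _
  have h1 : ∀ θ : Perm (Fin k), ∑ g : Perm V, G (θ * ret k c g) = ∑ g : Perm V, G (ret k c g) := by
    intro θ
    rw [← Equiv.sum_comp (Equiv.mulLeft (EE c hc θ)) (fun g => G (ret k c g))]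
    refine Finset.sum_congr rfl fun g _ => ?_
    rw [Equiv.coe_mulLeft, ret_left hc g _ θ (EE_b hc θ) (EE_not hc θ)]
  have h2 : ∑ θ : Perm (Fin k), ∑ g : Perm V, G (θ * ret k c g) =
      (k.factorial : ℝ) * ∑ g : Perm V, G (ret k c g) := by
    rw [Finset.sum_congr rfl fun θ _ => h1 θ, Finset.sum_const, Finset.card_univ,
      Fintype.card_perm, Fintype.card_fin, nsmul_eq_mul]
  have h3 : ∑ θ : Perm (Fin k), ∑ g : Perm V, G (θ * ret k c g) =
      ((Fintype.card V).factorial : ℝ) * ∑ π, G π := by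
    rw [Finset.sum_comm]
    have : ∀ g : Perm V, ∑ θ : Perm (Fin k), G (θ * ret k c g) = ∑ π, G π := fun g =>
      Equiv.sum_comp (Equiv.mulRight (ret k c g)) G
    rw [Finset.sum_congr rfl fun g _ => this g, Finset.sum_const, Finset.card_univ,
      Fintype.card_perm, nsmul_eq_mul]
  rw [← Finset.mul_sum]
  have h4 : 1 / ((Fintype.card V).factorial : ℝ) * ∑ g : Perm V, G (ret k c g) =
      (∑ π, G π) / (k.factorial : ℝ) := by
    field_simp
    linarith [h2.symm.trans h3]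
  rw [h4, sub_self, abs_zero]

theorem Pr_mono {ν : Perm V → ℝ} (hν : IsProb ν) {E F : Perm V → Prop} (h : ∀ g, E g → F g) :
    Pr ν E ≤ Pr ν F := by
  classical
  rw [Pr_eq, Pr_eq]
  refine Finset.sum_le_sum fun g _ => mul_le_mul_of_nonneg_left ?_ (hν.nn g)
  by_cases h1 : E g
  · rw [if_pos h1, if_pos (h g h1)]
  · rw [if_neg h1]
    split_ifs <;> norm_num

theorem Pr_ex {ν : Perm V → ℝ} (hν : IsProb ν) {ι : Type} [Fintype ι] (E : ι → Perm V → Prop) :
    Pr ν (fun g => ∃ i, E i g) ≤ ∑ i, Pr ν (E i) := by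
  classical
  have h0 : ∑ i, Pr ν (E i) = ∑ g, ν g * ∑ i, (if E i g then (1 : ℝ) else 0) := by
    simp only [Pr_eq, Finset.mul_sum]
    exact Finset.sum_comm
  rw [h0, Pr_eq]
  refine Finset.sum_le_sum fun g _ => mul_le_mul_of_nonneg_left ?_ (hν.nn g)
  by_cases h1 : ∃ i, E i g
  · rw [if_pos h1]
    obtain ⟨i, hi⟩ := h1
    have := Finset.single_le_sum (f := fun i => (if E i g then (1 : ℝ) else 0))
      (fun i _ => by split_ifs <;> norm_num) (Finset.mem_univ i)
    simpa [hi] using this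
  · rw [if_neg h1]
    exact Finset.sum_nonneg fun i _ => by split_ifs <;> norm_num

theorem arc_self {M : ℕ} {b : Fin M → V} {x : V} (hx : ∀ j, b j ≠ x) {g : Perm V}
    (h : Arc b x x g) (j : Fin M) : ¬ g.SameCycle x (b j) := by
  intro hs
  obtain ⟨n, h1, h2, h3⟩ := h
  obtain ⟨m, _, hm⟩ := hs.exists_pow_eq'
  have h4 : (g ^ (m % n)) x = b j := by
    have e : g ^ m = g ^ (m % n) * (g ^ n) ^ (m / n) := by
      rw [← pow_mul, ← pow_add, Nat.mod_add_div]
    rw [e, Perm.mul_apply] at hm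
    have e2 : ∀ q : ℕ, ((g ^ n) ^ q) x = x := by
      intro q
      induction q with
      | zero => rfl
      | succ q ih => rw [pow_succ', Perm.mul_apply, ih, h2]
    rwa [e2] at hm
  rcases Nat.eq_zero_or_pos (m % n) with h5 | h5
  · rw [h5, pow_zero, Perm.one_apply] at h4
    exact hx j h4.symm
  · exact h3 (m % n) h5 (Nat.mod_lt _ (by omega)) ⟨j, h4.symm⟩

theorem abs_ : S_ABS := by
  intro ht hr ha hsep htwo hnob k ε hε
  obtain ⟨M, hM⟩ := exists_nat_gt (8 * (k : ℝ) ^ 2 / ε)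
  have hM0 : (0 : ℝ) < (M : ℝ) + 1 := by positivity
  have hM1 : 2 * ((k : ℝ) ^ 2 * (2 / ((M : ℝ) + 1))) ≤ ε / 2 := by
    rw [div_lt_iff₀ hε] at hM
    rw [mul_div_assoc', mul_div_assoc', div_le_iff₀ hM0]
    nlinarith
  set D : ℝ := 2 * ((k : ℝ) ^ 2 * (2 + 2 * 2 ^ M + 2 * M)) + M + 1 with hD
  have hD0 : 0 < D := by positivity
  refine ⟨M, ε / 2 / D, by positivity, ?_⟩
  intro V _ _ ν hν a b hc hη hno hpair
  set δ := ε / 2 / D with hδd
  have hδ : 0 < δ := by positivity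
  have hDδ : D * δ = ε / 2 := by rw [hδd]; field_simp
  obtain ⟨hai, hbi, hab⟩ := app_inj hc
  have h1 := hsep ht hr ha V ν hν k M a b δ hc hδ.le hη
  have hnoi : ∀ i, Pr ν (fun g => ∀ j, ¬ g.SameCycle (a i) (b j)) ≤
      1 / ((M : ℝ) + 1) + 2 ^ M * δ := fun i => hnob V ν hν M (a i) b δ hδ.le (hno i)
  have hA : ∀ i j, Pr ν (Arc b (a i) (a j)) ≤ 2 / ((M : ℝ) + 1) + (2 + 2 * 2 ^ M + 2 * M) * δ := by
    intro i j
    by_cases hij : i = j
    · subst hij
      have h2 := Pr_mono hν (E := Arc b (a i) (a i))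
        (F := fun g => ∀ j, ¬ g.SameCycle (a i) (b j))
        (fun g hg j => arc_self (fun j => (hab i j).symm) hg j)
      have h3 := hnoi i
      have h4 : 1 / ((M : ℝ) + 1) ≤ 2 / ((M : ℝ) + 1) := by gcongr; norm_num
      have h5 : (2 : ℝ) ^ M * δ ≤ (2 + 2 * 2 ^ M + 2 * M) * δ := by
        apply mul_le_mul_of_nonneg_right _ hδ.le
        have : (0 : ℝ) < 2 ^ M := by positivity
        have : (0 : ℝ) ≤ M := Nat.cast_nonneg M
        linarith
      linarith
    · have h2 := htwo ht hr ha V ν hν M (a i) (a j) b δ (hai.ne hij) hbi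
        (fun l => ⟨(hab i l).symm, (hab j l).symm⟩) hδ.le hη
      have h3 := hnoi i
      have h4 := hnoi j
      have h5 := (abs_le.1 (hpair i j hij)).2
      have h6 : 2 / ((M : ℝ) + 1) = 1 / ((M : ℝ) + 1) + 1 / ((M : ℝ) + 1) := by ring
      rw [h6]
      linarith
  have h7 : Pr ν (fun g => ∃ i j, Arc b (a i) (a j) g) ≤
      (k : ℝ) ^ 2 * (2 / ((M : ℝ) + 1) + (2 + 2 * 2 ^ M + 2 * M) * δ) := by
    refine (Pr_ex hν (fun i g => ∃ j, Arc b (a i) (a j) g)).trans ?_
    refine (Finset.sum_le_sum fun i _ => Pr_ex hν (fun j g => Arc b (a i) (a j) g)).trans ?_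
    refine (Finset.sum_le_sum fun i _ => Finset.sum_le_sum fun j _ => hA i j).trans
      (le_of_eq ?_)
    rw [Finset.sum_const, Finset.sum_const, Finset.card_univ, Fintype.card_fin, nsmul_eq_mul,
      nsmul_eq_mul]
    ring
  intro G hG
  refine (h1 G hG).trans ?_
  have h8 : 2 * ((k : ℝ) ^ 2 * (2 / ((M : ℝ) + 1) + (2 + 2 * 2 ^ M + 2 * M) * δ)) + M * δ ≤ ε := by
    have e : 2 * ((k : ℝ) ^ 2 * (2 / ((M : ℝ) + 1) + (2 + 2 * 2 ^ M + 2 * M) * δ)) + M * δ =
        2 * ((k : ℝ) ^ 2 * (2 / ((M : ℝ) + 1))) + (D * δ - δ) := by rw [hD]; ring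
    rw [e, hDδ]
    linarith
  linarith

end

end Pool.Agent.Helper95K9.SM
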