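import Pool.Agent.Helper95K9.SM.Tow

/-!
# Induced permutations: left and right multiplication, the leaf AVG
-/

set_option autoImplicit false
set_option linter.unusedSectionVars false

namespace Pool.Agent.Helper95K9.SM

open Finset Equiv
open Pool.Agent.TH268.PD (ret top frac ret_spec FirstRet)

section

variable {V : Type} [Fintype V] [DecidableEq V]

theorem fr_iff {k : ℕ} {b : Fin k → V} (hb : Function.Injective b) (g : Perm V) (i j : Fin k) :
    ret k b g i = j ↔ ∃ n, FirstRet b g i j n := by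
  constructor
  · rintro rfl
    exact (ret_spec k b hb).1 g i
  · rintro ⟨n, hn⟩
    obtain ⟨n', hn'⟩ := (ret_spec k b hb).1 g i
    exact (FirstRet.unique hb hn' hn).2

/-- left multiplication by a permutation of the marked points -/
theorem ret_left {k : ℕ} {b : Fin k → V} (hb : Function.Injective b) (g h : Perm V)
    (θ : Perm (Fin k)) (h1 : ∀ i, h (b i) = b (θ i)) (h2 : ∀ v, v ∉ Set.range b → h v = v) :
    ret k b (h * g) = θ * ret k b g := by
  ext1 i
  rw [fr_iff hb, Perm.mul_apply]
  obtain ⟨n, hn1, hn2, hn3⟩ := (ret_spec k b hb).1 g i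
  have key : ∀ p, p < n → ((h * g) ^ p) (b i) = (g ^ p) (b i) := by
    intro p
    induction p with
    | zero => intro _; rfl
    | succ p ih =>
      intro hp
      rw [pow_succ', Perm.mul_apply, ih (by omega), Perm.mul_apply, ← Perm.mul_apply g,
        ← pow_succ' g]
      exact h2 _ (hn3 (p + 1) (by omega) hp)
  refine ⟨n, hn1, ?_, fun p hp hpn => ?_⟩
  · obtain ⟨q, rfl⟩ : ∃ q, n = q + 1 := ⟨n - 1, by omega⟩
    rw [pow_succ', Perm.mul_apply, key q (by omega), Perm.mul_apply, ← Perm.mul_apply g,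
      ← pow_succ' g, hn2, h1]
  · rw [key p hpn]
    exact hn3 p hp hpn

/-- right multiplication by a permutation of the marked points -/
theorem ret_right {k : ℕ} {b : Fin k → V} (hb : Function.Injective b) (g h : Perm V)
    (θ : Perm (Fin k)) (h1 : ∀ i, h (b i) = b (θ i)) (h2 : ∀ v, v ∉ Set.range b → h v = v) :
    ret k b (g * h) = ret k b g * θ := by
  ext1 i
  rw [fr_iff hb, Perm.mul_apply]
  obtain ⟨n, hn1, hn2, hn3⟩ := (ret_spec k b hb).1 g (θ i)
  have key : ∀ p, p < n → ((g * h) ^ (p + 1)) (b i) = (g ^ (p + 1)) (b (θ i)) := by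
    intro p
    induction p with
    | zero =>
      intro _
      rw [zero_add, pow_one, pow_one, Perm.mul_apply, h1]
    | succ p ih =>
      intro hp
      rw [pow_succ', Perm.mul_apply, ih (by omega), Perm.mul_apply,
        h2 _ (hn3 (p + 1) (by omega) hp), ← Perm.mul_apply g, ← pow_succ' g]
  refine ⟨n, hn1, ?_, fun p hp hpn => ?_⟩
  · obtain ⟨q, rfl⟩ : ∃ q, n = q + 1 := ⟨n - 1, by omega⟩
    rw [key q (by omega), hn2]
  · obtain ⟨q, rfl⟩ : ∃ q, p = q + 1 := ⟨p - 1, by omega⟩
    rw [key q (by omega)]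
    exact hn3 (q + 1) hp hpn

theorem swap_ext {k : ℕ} {b : Fin k → V} (hb : Function.Injective b) (i j : Fin k) :
    (∀ l, swap (b i) (b j) (b l) = b (swap i j l)) ∧
      ∀ v, v ∉ Set.range b → swap (b i) (b j) v = v := by
  refine ⟨fun l => hb.swap_apply i j l, fun v hv => ?_⟩
  apply swap_apply_of_ne_of_ne
  · rintro rfl; exact hv ⟨i, rfl⟩
  · rintro rfl; exact hv ⟨j, rfl⟩

theorem NNu_one (ν : Perm V → ℝ) : NNu ν 1 = 0 := by
  unfold NNu
  refine Finset.sum_eq_zero fun g _ => ?_
  rw [inv_one, one_mul, sub_self, abs_zero]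

theorem NNu_mul (ν : Perm V → ℝ) (h h' : Perm V) : NNu ν (h * h') ≤ NNu ν h + NNu ν h' := by
  have e : NNu ν h' = ∑ g, |ν (h'⁻¹ * (h⁻¹ * g)) - ν (h⁻¹ * g)| := by
    unfold NNu
    exact (Equiv.sum_comp (Equiv.mulLeft h⁻¹) (fun g => |ν (h'⁻¹ * g) - ν g|)).symm
  rw [e, add_comm]
  unfold NNu
  rw [← Finset.sum_add_distrib]
  refine Finset.sum_le_sum fun g _ => ?_
  rw [mul_inv_rev, mul_assoc]
  exact abs_sub_le _ _ _

theorem avg : S_AVG := by
  intro V _ _ ν M b η hb hη hs
  have key : ∀ (n : ℕ) (θ : Perm (Fin M)) (h : Perm V), θ.support.card ≤ n →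
      (∀ j, h (b j) = b (θ j)) → (∀ v, v ∉ Set.range b → h v = v) → NNu ν h ≤ n * η := by
    intro n
    induction n with
    | zero =>
      intro θ h hθ h1 h2
      have hθ1 : θ = 1 := by
        rw [Nat.le_zero, Finset.card_eq_zero, Perm.support_eq_empty_iff] at hθ
        exact hθ
      subst hθ1
      have hh : h = 1 := by
        ext1 v
        by_cases hv : v ∈ Set.range b
        · obtain ⟨j, rfl⟩ := hv
          rw [h1]; rfl
        · rw [h2 v hv]; rfl
      rw [hh, NNu_one]
      simp
    | succ n ih =>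
      intro θ h hθ h1 h2
      by_cases h3 : ∃ x, θ x ≠ x
      · obtain ⟨x, hx⟩ := h3
        have h4 := Perm.card_support_swap_mul hx
        obtain ⟨e1, e2⟩ := swap_ext hb x (θ x)
        have h5 := ih (swap x (θ x) * θ) (swap (b x) (b (θ x)) * h) (by omega)
          (fun j => by rw [Perm.mul_apply, h1, e1, Perm.mul_apply])
          (fun v hv => by rw [Perm.mul_apply, h2 v hv, e2 v hv])
        have h6 := NNu_mul ν (swap (b x) (b (θ x))) (swap (b x) (b (θ x)) * h)
        rw [← mul_assoc, swap_mul_self, one_mul] at h6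
        have h7 := hs x (θ x)
        push_cast
        linarith
      · push Not at h3
        have h8 := ih θ h (by
          have : θ = 1 := by ext1 x; exact h3 x
          rw [this]; simp) h1 h2
        push_cast
        linarith
  intro θ h h1 h2
  refine key M θ h ?_ h1 h2
  refine (Finset.card_le_univ _).trans ?_
  rw [Fintype.card_fin]

end

end Pool.Agent.Helper95K9.SM
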