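import Pool.Agent.Helper95K9.SM.Stm
import Pool.Agent.Helper95K9.SM.One

/-!
# Nearest neighbour stirring: the induced permutations on the whole torus are uniform
-/

set_option autoImplicit false
set_option linter.unusedVariables false

namespace Pool.Agent.Helper95K9.SM

open Finset Equiv
open Pool.Agent.TH268.PD (ret top frac)
open Pool.Agent.Y998.ST (stirLaw stirExp nnRate totalRate nn_nonneg law_nonneg)
open Pool.Agent.Y998.LP (NN tdist)
open Pool.Agent.R517.PDS (box exists_tuple tdist_box t_NEAR)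

namespace GloL

theorem append_inj {V : Type} {k M : ℕ} {a : Fin k → V} {b : Fin M → V}
    (ha : Function.Injective a) (hb : Function.Injective b) (hab : ∀ i j, a i ≠ b j) :
    Function.Injective (Fin.append a b) := by
  intro x y
  refine Fin.addCases (fun i => ?_) (fun i => ?_) x <;>
    refine Fin.addCases (fun j => ?_) (fun j => ?_) y
  · rw [Fin.append_left, Fin.append_left]
    intro h
    rw [ha h]
  · rw [Fin.append_left, Fin.append_right]
    intro h
    exact absurd h (hab i j)
  · rw [Fin.append_left, Fin.append_right]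
    intro h
    exact absurd h.symm (hab j i)
  · rw [Fin.append_right, Fin.append_right]
    intro h
    rw [hb h]

/-- many near points different from the given ones -/
theorem exists_b (d L k M : ℕ) [NeZero L] (hd : 1 ≤ d) (hL : k + M + 1 ≤ L)
    (a : Fin k → Fin d → ZMod L) (ha : Function.Injective a) :
    ∃ b : Fin M → Fin d → ZMod L, Function.Injective b ∧ (∀ i j, a i ≠ b j) ∧
      ∀ i j, tdist (b i) (b j) ≤ d * (k + M + 1) := by
  classical
  have hcard : (box d L (k + M + 1)).card = (k + M + 1) ^ d :=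
    (t_NEAR d L (k + M + 1) (by omega) hL 0).1
  have h1 : M ≤ (box d L (k + M + 1) \ Finset.univ.image a).card := by
    have h2 := Finset.le_card_sdiff (Finset.univ.image a) (box d L (k + M + 1))
    have h3 : (Finset.univ.image a).card ≤ k := by
      refine Finset.card_image_le.trans ?_
      rw [Finset.card_univ, Fintype.card_fin]
    have h4 : k + M + 1 ≤ (k + M + 1) ^ d := Nat.le_self_pow (by omega) _
    omega
  obtain ⟨b, hb, hbB⟩ := exists_tuple _ M h1
  refine ⟨b, hb, fun i j h => ?_, fun i j => ?_⟩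
  · have h2 := (Finset.mem_sdiff.1 (hbB j)).2
    exact h2 (by rw [← h]; exact Finset.mem_image_of_mem _ (Finset.mem_univ _))
  · have h2 := tdist_box (k + M + 1) (0 : Fin d → ZMod L) (b i) (b j)
      (Finset.mem_sdiff.1 (hbB i)).1 (Finset.mem_sdiff.1 (hbB j)).1
    rwa [zero_add, zero_add] at h2

theorem Pr_eq {V : Type} [Fintype V] [DecidableEq V] (J : V → V → ℝ) (t : ℝ)
    (E E' : Perm V → Prop) [DecidablePred E'] (h : ∀ g, E g ↔ E' g) :
    Pr (stirLaw J t) E = stirExp J t (fun g => if E' g then 1 else 0) := by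
  classical
  unfold Pr stirExp
  refine Finset.sum_congr rfl fun g _ => ?_
  beta_reduce
  by_cases h1 : E' g
  · rw [if_pos h1, if_pos ((h g).2 h1)]
  · rw [if_neg h1, if_neg fun h2 => h1 ((h g).1 h2)]

end GloL

open GloL

open Classical in
/-- **the induced permutations are uniform** -/
theorem glo (tow : S_TOW) (rmul : S_RMUL) (avg : S_AVG) (sep : S_SEP) (two : S_TWO) (nob : S_NOB)
    (abs_ : S_ABS) (d : ℕ) (hd : 1 ≤ d) (k : ℕ) (ε : ℝ) (hε : 0 < ε) :
    ∃ A : ℝ, 0 < A ∧ ∀ (L : ℕ) [NeZero L], A ≤ L → ∀ t : ℝ, 2 ≤ t →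
      A * (L : ℝ) ^ (4 / ((d : ℝ) + 2)) ≤ t / Real.log t → ∀ a : Fin k → Fin d → ZMod L,
      Function.Injective a → Mix (stirLaw (nnRate d L) t) a ε := by
  obtain ⟨M, δ, hδ, H⟩ := abs_ tow rmul avg sep two nob k ε hε
  obtain ⟨C, hC, hdist⟩ := Pool.Agent.Y998.LQ.t_dist d hd
  have hone : ∀ q : ℕ, ∃ A : ℝ, 0 < A ∧ (1 ≤ q → ∀ (L : ℕ) [NeZero L], A ≤ L → ∀ t : ℝ, 2 ≤ t →
      A * (L : ℝ) ^ (4 / ((d : ℝ) + 2)) ≤ t / Real.log t →
      ∀ b : Fin q → Fin d → ZMod L, Function.Injective b →
      |stirExp (nnRate d L) t (fun g => if ∀ i j, g.SameCycle (b i) (b j) then 1 else 0) -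
        1 / q| ≤ δ) := by
    intro q
    rcases Nat.eq_zero_or_pos q with h | h
    · exact ⟨1, one_pos, fun h' => by omega⟩
    · obtain ⟨A, hA, h2⟩ :=
        one_glo d hd q h δ hδ
      exact ⟨A, hA, fun _ L _ hL t ht h3 b hb => h2 L hL t ht h3 b hb⟩
  choose Aq hAq hq using hone
  obtain ⟨B, hB⟩ : ∃ B : ℝ, B = C * (d * (k + M + 1)) / δ := ⟨_, rfl⟩
  have hB2 : 0 ≤ B ^ 2 := sq_nonneg B
  have hS0 : 0 ≤ ∑ q ∈ range (M + 3), Aq q := Finset.sum_nonneg fun q _ => (hAq q).le
  refine ⟨∑ q ∈ range (M + 3), Aq q + (k + M + 3) + 2 * B ^ 2, by positivity, ?_⟩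
  intro L _ hL t ht htL a ha
  have hLr : (3 : ℝ) ≤ L := by
    have : (0 : ℝ) ≤ (k : ℝ) + M := by positivity
    linarith
  have hL3 : 3 ≤ L := by exact_mod_cast hLr
  have hLkM : k + M + 1 ≤ L := by
    have h1 : ((k + M + 1 : ℕ) : ℝ) ≤ L := by
      push_cast
      linarith
    exact_mod_cast h1
  have hLα : (1 : ℝ) ≤ (L : ℝ) ^ (4 / ((d : ℝ) + 2)) :=
    Real.one_le_rpow (by linarith) (by positivity)
  have ht0 : 0 < t := by linarith
  obtain ⟨A, hA⟩ : ∃ A : ℝ, A = ∑ q ∈ range (M + 3), Aq q + (k + M + 3) + 2 * B ^ 2 := ⟨_, rfl⟩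
  rw [← hA] at hL htL
  have hA0 : 0 < A := by
    rw [hA]
    positivity
  have hA1 : A ≤ t / Real.log t := (le_mul_of_one_le_right hA0.le hLα).trans htL
  have hAt : A / 2 ≤ t := Pool.Agent.Helper47K9.SH.t_large ht hA1
  have hBt : B ≤ Real.sqrt t := by
    refine Real.le_sqrt_of_sq_le ?_
    have : (0 : ℝ) ≤ (k : ℝ) + M := by positivity
    linarith
  have hst : 0 < Real.sqrt t := Real.sqrt_pos.2 ht0
  have hAle : ∀ q, q < M + 3 → Aq q ≤ A := by
    intro q hq'
    have h1 : Aq q ≤ ∑ q ∈ range (M + 3), Aq q :=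
      Finset.single_le_sum (f := Aq) (fun i _ => (hAq i).le) (Finset.mem_range.2 hq')
    have : (0 : ℝ) ≤ (k : ℝ) + M := by positivity
    linarith
  have hcon : ∀ q, 1 ≤ q → q < M + 3 → ∀ b : Fin q → Fin d → ZMod L, Function.Injective b →
      |stirExp (nnRate d L) t (fun g => if ∀ i j, g.SameCycle (b i) (b j) then 1 else 0) -
        1 / q| ≤ δ := by
    intro q h1 h2 b hb
    exact hq q h1 L ((hAle q h2).trans hL) t ht
      ((mul_le_mul_of_nonneg_right (hAle q h2) (by positivity)).trans htL) b hb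
  obtain ⟨b, hb, hab, hbd⟩ := exists_b d L k M hd hLkM a ha
  have hprob : IsProb (stirLaw (nnRate d L) t) :=
    ⟨law_nonneg nn_nonneg ht0.le, Pool.Agent.Y998.CN.law_sum _ _⟩
  refine H (Fin d → ZMod L) (stirLaw (nnRate d L) t) hprob a b (append_inj ha hb hab) ?_ ?_ ?_
  · intro i j
    have h1 := hdist L hL3 t ht0 (b i) (b j)
    refine le_trans (le_of_eq rfl) (h1.trans ?_)
    rw [div_le_iff₀ hst]
    have h2 : (tdist (b i) (b j) : ℝ) ≤ d * (k + M + 1) := by exact_mod_cast hbd i j
    have h3 : C * (d * (k + M + 1)) = δ * B := by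
      rw [hB]
      field_simp
    calc C * (tdist (b i) (b j) : ℝ) ≤ C * (d * (k + M + 1)) :=
          mul_le_mul_of_nonneg_left h2 hC.le
      _ = δ * B := h3
      _ ≤ δ * Real.sqrt t := mul_le_mul_of_nonneg_left hBt hδ.le
  · intro i S
    have hSM : S.card ≤ M := by
      have := Finset.card_le_univ S
      rwa [Fintype.card_fin] at this
    obtain ⟨c, hc⟩ : ∃ c : Fin (S.card + 1) → Fin d → ZMod L,
      c = Fin.cons (a i) (fun r => b (S.orderEmbOfFin rfl r)) := ⟨_, rfl⟩
    have hc0 : c 0 = a i := by rw [hc, Fin.cons_zero]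
    have hcs : ∀ r : Fin S.card, c r.succ = b (S.orderEmbOfFin rfl r) := fun r => by
      rw [hc, Fin.cons_succ]
    have hcinj : Function.Injective c := by
      intro u v
      refine Fin.cases ?_ (fun u => ?_) u <;> refine Fin.cases ?_ (fun v => ?_) v
      · intro _; rfl
      · rw [hc0, hcs]
        intro h
        exact absurd h (hab _ _)
      · rw [hc0, hcs]
        intro h
        exact absurd h.symm (hab _ _)
      · rw [hcs, hcs]
        intro h
        rw [(S.orderEmbOfFin rfl).injective (hb h)]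
    have h1 := hcon (S.card + 1) (by omega) (by omega) c hcinj
    have h2 : Pr (stirLaw (nnRate d L) t) (fun g => ∀ j ∈ S, g.SameCycle (a i) (b j)) =
        stirExp (nnRate d L) t (fun g => if ∀ i j, g.SameCycle (c i) (c j) then 1 else 0) := by
      refine Pr_eq _ _ _ _ fun g => ?_
      constructor
      · intro h
        have h3 : ∀ u, g.SameCycle (a i) (c u) := by
          intro u
          refine Fin.cases ?_ (fun u => ?_) u
          · rw [hc0]
          · rw [hcs]
            exact h _ (S.orderEmbOfFin_mem rfl u)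
        exact fun u v => (h3 u).symm.trans (h3 v)
      · intro h j hj
        have h3 : j ∈ Set.range (S.orderEmbOfFin rfl) := by
          rw [Finset.range_orderEmbOfFin]
          exact hj
        obtain ⟨r, hr⟩ := h3
        have h4 := h 0 r.succ
        rw [hc0, hcs, hr] at h4
        exact h4
    rw [h2]
    push_cast at h1
    exact h1
  · intro i j hij
    have hcinj : Function.Injective ![a i, a j] := by
      intro u v
      fin_cases u <;> fin_cases v <;> simp [ha.eq_iff, hij, hij.symm]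
    have h1 := hcon 2 (by omega) (by omega) ![a i, a j] hcinj
    have h2 : Pr (stirLaw (nnRate d L) t) (fun g => g.SameCycle (a i) (a j)) =
        stirExp (nnRate d L) t
          (fun g => if ∀ u v, g.SameCycle (![a i, a j] u) (![a i, a j] v) then 1 else 0) := by
      refine Pr_eq _ _ _ _ fun g => ?_
      constructor
      · intro h u v
        fin_cases u <;> fin_cases v
        · exact Perm.SameCycle.refl _ _
        · exact h
        · exact h.symm
        · exact Perm.SameCycle.refl _ _
      · intro h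
        exact h 0 1
    rw [h2]
    push_cast at h1
    exact h1

end Pool.Agent.Helper95K9.SM
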