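import Pool.Agent.Helper95K9.SM.Avg

/-!
# The induced permutation is uniform: the leaves SEP and TWO
-/

set_option autoImplicit false
set_option linter.unusedSectionVars false

namespace Pool.Agent.Helper95K9.SM

open Finset Equiv
open Pool.Agent.TH268.PD (ret top frac ret_spec FirstRet)

section

variable {V : Type} [Fintype V] [DecidableEq V]

/-- the permutation `θ` of the points `b` -/
noncomputable def EE {M : ℕ} (b : Fin M → V) (hb : Function.Injective b) (θ : Perm (Fin M)) :
    Perm V := θ.viaFintypeEmbedding ⟨b, hb⟩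

theorem EE_b {M : ℕ} {b : Fin M → V} (hb : Function.Injective b) (θ : Perm (Fin M)) (j : Fin M) :
    EE b hb θ (b j) = b (θ j) := Perm.viaFintypeEmbedding_apply_image θ ⟨b, hb⟩ j

theorem EE_not {M : ℕ} {b : Fin M → V} (hb : Function.Injective b) (θ : Perm (Fin M)) (v : V)
    (hv : v ∉ Set.range b) : EE b hb θ v = v :=
  Perm.viaFintypeEmbedding_apply_notMem_range θ ⟨b, hb⟩ hv

theorem EE_mul {M : ℕ} {b : Fin M → V} (hb : Function.Injective b) (θ θ' : Perm (Fin M)) :
    EE b hb (θ * θ') = EE b hb θ * EE b hb θ' := by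
  ext1 v
  by_cases hv : v ∈ Set.range b
  · obtain ⟨j, rfl⟩ := hv
    rw [EE_b, Perm.mul_apply, Perm.mul_apply, EE_b, EE_b]
  · rw [EE_not hb _ _ hv, Perm.mul_apply, EE_not hb _ _ hv, EE_not hb _ _ hv]

theorem app_inj {k M : ℕ} {a : Fin k → V} {b : Fin M → V}
    (hc : Function.Injective (Fin.append a b)) :
    Function.Injective a ∧ Function.Injective b ∧ ∀ i j, a i ≠ b j := by
  refine ⟨fun i j h => ?_, fun i j h => ?_, fun i j h => ?_⟩
  · have : Fin.castAdd M i = Fin.castAdd M j := hc (by rw [Fin.append_left, Fin.append_left, h])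
    exact Fin.castAdd_injective _ _ this
  · have : Fin.natAdd k i = Fin.natAdd k j := hc (by rw [Fin.append_right, Fin.append_right, h])
    exact Fin.natAdd_injective _ _ this
  · have : Fin.castAdd M i = Fin.natAdd k j := hc (by rw [Fin.append_left, Fin.append_right, h])
    have h2 := congrArg Fin.val this
    simp only [Fin.val_castAdd, Fin.val_natAdd] at h2
    have := i.2
    omega

/-- the key identity -/
theorem phi_swap {k M : ℕ} {a : Fin k → V} {b : Fin M → V}
    (hc : Function.Injective (Fin.append a b)) (hb : Function.Injective b) (g : Perm V)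
    (θ : Perm (Fin M)) (i j : Fin k) (p q : Fin M)
    (hp : ret (k + M) (Fin.append a b) g (Fin.castAdd M i) = Fin.natAdd k p)
    (hq : ret (k + M) (Fin.append a b) g (Fin.castAdd M j) = Fin.natAdd k q) :
    ret k a (EE b hb (θ * swap p q) * g) = ret k a (EE b hb θ * g) * swap i j := by
  classical
  set c := Fin.append a b with hcd
  have hn : Function.Injective (Fin.natAdd (m := M) k) := Fin.natAdd_injective _ _
  have hca : Function.Injective (Fin.castAdd (n := k) M) := Fin.castAdd_injective _ _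
  have hac : (fun i => c (Fin.castAdd M i)) = a := by
    funext i; rw [hcd, Fin.append_left]
  have h1 : ∀ θ : Perm (Fin M), ret (k + M) c (EE b hb θ * g) =
      EE (Fin.natAdd k) hn θ * ret (k + M) c g := by
    intro θ
    refine ret_left hc g _ _ (fun l => ?_) (fun v hv => ?_)
    · refine Fin.addCases (fun l => ?_) (fun l => ?_) l
      · rw [EE_not hn _ _ (by
          rintro ⟨m, hm⟩
          have h2 := congrArg Fin.val hm
          simp only [Fin.val_castAdd, Fin.val_natAdd] at h2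
          have := l.2
          omega), hcd, Fin.append_left]
        refine EE_not hb _ _ ?_
        rintro ⟨m, hm⟩
        exact (app_inj hc).2.2 l m hm.symm
      · rw [EE_b, hcd, Fin.append_right, Fin.append_right, EE_b]
    · refine EE_not hb _ _ ?_
      rintro ⟨m, hm⟩
      exact hv ⟨Fin.natAdd k m, by rw [hcd, Fin.append_right, hm]⟩
  have h2 : ∀ h : Perm V, ret k a h = ret k (Fin.castAdd M) (ret (k + M) c h) := by
    intro h
    rw [← tow V k (k + M) c (Fin.castAdd M) h hc hca, hac]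
  rw [h2, h2, h1, h1, EE_mul]
  have h3 : EE (Fin.natAdd k) hn (swap p q) * ret (k + M) c g =
      ret (k + M) c g * swap (Fin.castAdd M i) (Fin.castAdd M j) := by
    have e : EE (Fin.natAdd k) hn (swap p q) = swap (Fin.natAdd k p) (Fin.natAdd k q) := by
      obtain ⟨e1, e2⟩ := swap_ext hn p q
      ext1 v
      by_cases hv : v ∈ Set.range (Fin.natAdd (m := M) k)
      · obtain ⟨l, rfl⟩ := hv
        rw [EE_b, e1]
      · rw [EE_not hn _ _ hv, e2 v hv]
    rw [e, ← hp, ← hq]
    exact (Equiv.mul_swap_eq_swap_mul _ _ _).symm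
  rw [mul_assoc, h3, ← mul_assoc, rmul _ _ _ _ _ _ hca]

theorem next_of {k M : ℕ} {a : Fin k → V} {b : Fin M → V}
    (hc : Function.Injective (Fin.append a b)) (g : Perm V) (i : Fin k) :
    (∃ j, Arc b (a i) (a j) g ∧
      ret (k + M) (Fin.append a b) g (Fin.castAdd M i) = Fin.castAdd M j) ∨
    ∃ p : Fin M, ret (k + M) (Fin.append a b) g (Fin.castAdd M i) = Fin.natAdd k p := by
  obtain ⟨n, h1, h2, h3⟩ := (ret_spec (k + M) (Fin.append a b) hc).1 g (Fin.castAdd M i)
  generalize ret (k + M) (Fin.append a b) g (Fin.castAdd M i) = r at h2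
  revert h2
  refine Fin.addCases (fun l => ?_) (fun l => ?_) r
  · intro h2
    left
    rw [Fin.append_left, Fin.append_left] at h2
    refine ⟨l, ⟨n, h1, h2, fun p hp hpn hr => h3 p hp hpn ?_⟩, rfl⟩
    rw [Fin.append_left]
    obtain ⟨m, hm⟩ := hr
    exact ⟨Fin.natAdd k m, by rw [Fin.append_right, hm]⟩
  · intro _
    right
    exact ⟨l, rfl⟩

/-- left multiplication changes the mean by the total variation -/
theorem mean_left (ν : Perm V → ℝ) (h : Perm V) (F : Perm V → ℝ) (hF : ∀ g, |F g| ≤ 1) :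
    |∑ g, ν g * F g - ∑ g, ν g * F (h * g)| ≤ NNu ν h := by
  have e : ∑ g, ν g * F (h * g) = ∑ g, ν (h⁻¹ * g) * F g := by
    rw [← Equiv.sum_comp (Equiv.mulLeft h) (fun g => ν (h⁻¹ * g) * F g)]
    refine Finset.sum_congr rfl fun g _ => ?_
    simp
  rw [e, ← Finset.sum_sub_distrib]
  refine (Finset.abs_sum_le_sum_abs _ _).trans ?_
  unfold NNu
  refine Finset.sum_le_sum fun g _ => ?_
  rw [← sub_mul, abs_mul, abs_sub_comm]
  exact mul_le_of_le_one_right (abs_nonneg _) (hF g)

/-- the average over the permutations of the points `b` -/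
theorem mean_avg (ν : Perm V → ℝ) {M : ℕ} {b : Fin M → V} (hb : Function.Injective b) {η : ℝ}
    (hη : 0 ≤ η) (hs : ∀ i j, NNu ν (swap (b i) (b j)) ≤ η) (F : Perm V → ℝ)
    (hF : ∀ g, |F g| ≤ 1) :
    |∑ g, ν g * F g - ∑ g, ν g * ((∑ θ : Perm (Fin M), F (EE b hb θ * g)) / (M.factorial : ℝ))| ≤
      M * η := by
  have hM : (0 : ℝ) < (M.factorial : ℝ) := by exact_mod_cast Nat.factorial_pos M
  have hcard : ∑ _θ : Perm (Fin M), (1 : ℝ) = (M.factorial : ℝ) := by
    rw [Finset.sum_const, Finset.card_univ, Fintype.card_perm, Fintype.card_fin, nsmul_eq_mul,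
      mul_one]
  have e : ∑ g, ν g * F g -
      ∑ g, ν g * ((∑ θ : Perm (Fin M), F (EE b hb θ * g)) / (M.factorial : ℝ)) =
      (∑ θ : Perm (Fin M), (∑ g, ν g * F g - ∑ g, ν g * F (EE b hb θ * g))) /
        (M.factorial : ℝ) := by
    rw [Finset.sum_sub_distrib, Finset.sum_comm (f := fun θ g => ν g * F (EE b hb θ * g))]
    rw [sub_div, Finset.sum_const, Finset.card_univ, Fintype.card_perm, Fintype.card_fin,
      nsmul_eq_mul, mul_div_cancel_left₀ _ hM.ne']
    congr 1
    rw [Finset.sum_div]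
    refine Finset.sum_congr rfl fun g _ => ?_
    rw [← mul_div_assoc, Finset.mul_sum]
  rw [e, abs_div, abs_of_pos hM, div_le_iff₀ hM]
  refine (Finset.abs_sum_le_sum_abs _ _).trans ?_
  calc ∑ θ : Perm (Fin M), |∑ g, ν g * F g - ∑ g, ν g * F (EE b hb θ * g)|
      ≤ ∑ _θ : Perm (Fin M), M * η := by
        refine Finset.sum_le_sum fun θ _ => ?_
        refine (mean_left ν _ F hF).trans ?_
        exact avg V ν M b η hb hη hs θ (EE b hb θ) (EE_b hb θ) (EE_not hb θ)
    _ = M * η * (M.factorial : ℝ) := by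
        rw [← hcard, Finset.mul_sum]
        simp

theorem sum_tau {k M : ℕ} (φ : Perm (Fin M) → Perm (Fin k)) (s : Fin k → Fin M)
    (h : ∀ θ i j, φ (θ * swap (s i) (s j)) = φ θ * swap i j) (G : Perm (Fin k) → ℝ)
    (τ : Perm (Fin k)) : ∑ θ, G (φ θ * τ) = ∑ θ, G (φ θ) := by
  induction τ using Equiv.Perm.swap_induction_on with
  | one => simp
  | swap_mul f x y hxy ih =>
    rw [← ih]
    have e : ∀ θ, G (φ θ * (swap x y * f)) = G (φ (θ * swap (s x) (s y)) * f) := by
      intro θ; rw [h, mul_assoc]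
    rw [Finset.sum_congr rfl fun θ _ => e θ]
    exact Equiv.sum_comp (Equiv.mulRight (swap (s x) (s y))) (fun θ => G (φ θ * f))

theorem avg_good {k M : ℕ} {a : Fin k → V} {b : Fin M → V}
    (hc : Function.Injective (Fin.append a b)) (hb : Function.Injective b) (g : Perm V)
    (hg : ¬ ∃ i j, Arc b (a i) (a j) g) (G : Perm (Fin k) → ℝ) :
    (∑ θ : Perm (Fin M), G (ret k a (EE b hb θ * g))) / (M.factorial : ℝ) =
      (∑ π, G π) / (k.factorial : ℝ) := by
  have hs : ∀ i, ∃ p : Fin M,
      ret (k + M) (Fin.append a b) g (Fin.castAdd M i) = Fin.natAdd k p := by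
    intro i
    rcases next_of hc g i with ⟨j, hj, _⟩ | h
    · exact absurd ⟨i, j, hj⟩ hg
    · exact h
  choose s hs using hs
  have h1 := sum_tau (fun θ => ret k a (EE b hb θ * g)) s
    (fun θ i j => phi_swap hc hb g θ i j (s i) (s j) (hs i) (hs j)) G
  have hM : (0 : ℝ) < (M.factorial : ℝ) := by exact_mod_cast Nat.factorial_pos M
  have hk : (0 : ℝ) < (k.factorial : ℝ) := by exact_mod_cast Nat.factorial_pos k
  have hcM : ∀ x : ℝ, ∑ _θ : Perm (Fin M), x = (M.factorial : ℝ) * x := by
    intro x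
    rw [Finset.sum_const, Finset.card_univ, Fintype.card_perm, Fintype.card_fin, nsmul_eq_mul]
  have hck : ∀ x : ℝ, ∑ _τ : Perm (Fin k), x = (k.factorial : ℝ) * x := by
    intro x
    rw [Finset.sum_const, Finset.card_univ, Fintype.card_perm, Fintype.card_fin, nsmul_eq_mul]
  have h2 : ∑ τ : Perm (Fin k), ∑ θ : Perm (Fin M), G (ret k a (EE b hb θ * g) * τ) =
      (k.factorial : ℝ) * ∑ θ : Perm (Fin M), G (ret k a (EE b hb θ * g)) := by
    rw [← hck]
    exact Finset.sum_congr rfl fun τ _ => h1 τ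
  have h3 : ∑ τ : Perm (Fin k), ∑ θ : Perm (Fin M), G (ret k a (EE b hb θ * g) * τ) =
      (M.factorial : ℝ) * ∑ π, G π := by
    rw [Finset.sum_comm, ← hcM]
    refine Finset.sum_congr rfl fun θ _ => ?_
    exact Equiv.sum_comp (Equiv.mulLeft (ret k a (EE b hb θ * g))) G
  rw [div_eq_div_iff hM.ne' hk.ne']
  linarith [h2.symm.trans h3]

theorem Pr_nonneg {ν : Perm V → ℝ} (hν : IsProb ν) (E : Perm V → Prop) : 0 ≤ Pr ν E := by
  unfold Pr
  refine Finset.sum_nonneg fun g _ => mul_nonneg (hν.nn g) ?_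
  split_ifs <;> norm_num

theorem Pr_eq (ν : Perm V → ℝ) (E : Perm V → Prop) [DecidablePred E] :
    Pr ν E = ∑ g, ν g * (if E g then 1 else 0) := by
  unfold Pr
  refine Finset.sum_congr rfl fun g _ => ?_
  by_cases h : E g
  · rw [if_pos h, if_pos h]
  · rw [if_neg h, if_neg h]

theorem sep : S_SEP := by
  intro _ _ _ V _ _ ν hν k M a b η hc hη hs G hG
  classical
  have hb := (app_inj hc).2.1
  have hk : (0 : ℝ) < (k.factorial : ℝ) := by exact_mod_cast Nat.factorial_pos k
  have hM : (0 : ℝ) < (M.factorial : ℝ) := by exact_mod_cast Nat.factorial_pos M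
  have h1 := mean_avg ν hb hη hs (fun g => G (ret k a g)) (fun g => hG _)
  have h2 : |∑ g, ν g * ((∑ θ : Perm (Fin M), G (ret k a (EE b hb θ * g))) /
      (M.factorial : ℝ)) - (∑ π, G π) / (k.factorial : ℝ)| ≤
      2 * Pr ν (fun g => ∃ i j, Arc b (a i) (a j) g) := by
    have e : (∑ π, G π) / (k.factorial : ℝ) = ∑ g, ν g * ((∑ π, G π) / (k.factorial : ℝ)) := by
      rw [← Finset.sum_mul, hν.one, one_mul]
    rw [e, ← Finset.sum_sub_distrib]
    refine (Finset.abs_sum_le_sum_abs _ _).trans ?_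
    unfold Pr
    rw [Finset.mul_sum]
    refine Finset.sum_le_sum fun g _ => ?_
    rw [← mul_sub, abs_mul, abs_of_nonneg (hν.nn g)]
    by_cases hg : ∃ i j, Arc b (a i) (a j) g
    · rw [if_pos hg]
      have b1 : |(∑ θ : Perm (Fin M), G (ret k a (EE b hb θ * g))) / (M.factorial : ℝ)| ≤ 1 := by
        rw [abs_div, abs_of_pos hM, div_le_one hM]
        refine (Finset.abs_sum_le_sum_abs _ _).trans ?_
        refine (Finset.sum_le_sum fun θ _ => hG _).trans (le_of_eq ?_)
        rw [Finset.sum_const, Finset.card_univ, Fintype.card_perm, Fintype.card_fin,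
          nsmul_eq_mul, mul_one]
      have b2 : |(∑ π, G π) / (k.factorial : ℝ)| ≤ 1 := by
        rw [abs_div, abs_of_pos hk, div_le_one hk]
        refine (Finset.abs_sum_le_sum_abs _ _).trans ?_
        refine (Finset.sum_le_sum fun θ _ => hG _).trans (le_of_eq ?_)
        rw [Finset.sum_const, Finset.card_univ, Fintype.card_perm, Fintype.card_fin,
          nsmul_eq_mul, mul_one]
      have b3 := abs_sub (((∑ θ : Perm (Fin M), G (ret k a (EE b hb θ * g))) /
        (M.factorial : ℝ))) ((∑ π, G π) / (k.factorial : ℝ))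
      nlinarith [hν.nn g]
    · rw [if_neg hg, avg_good hc hb g hg G, sub_self, abs_zero]
      simp
  rw [abs_le] at h1 h2 ⊢
  constructor
  · linarith [h1.1, h2.1]
  · linarith [h1.2, h2.2]

theorem same_of_ret {k : ℕ} {a : Fin k → V} (ha : Function.Injective a) (g : Perm V)
    (i j : Fin k) : (ret k a g).SameCycle i j ↔ g.SameCycle (a i) (a j) :=
  (ret_spec k a ha).2.2.2 g i j

theorem arc_left {M : ℕ} {b : Fin M → V} (hb : Function.Injective b) {x y : V} {g : Perm V}
    (hy : ∀ j, b j ≠ y) (h : Arc b x y g) (θ : Perm (Fin M)) :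
    (EE b hb θ * g).SameCycle x y := by
  obtain ⟨n, h1, h2, h3⟩ := h
  have key : ∀ p, p ≤ n → ((EE b hb θ * g) ^ p) x = (g ^ p) x := by
    intro p
    induction p with
    | zero => intro _; rfl
    | succ p ih =>
      intro hp
      rw [pow_succ', Perm.mul_apply, ih (by omega), Perm.mul_apply, ← Perm.mul_apply g,
        ← pow_succ' g]
      apply EE_not
      rcases Nat.lt_or_ge (p + 1) n with h | h
      · exact h3 (p + 1) (by omega) h
      · have e : p + 1 = n := by omega
        rw [e, h2]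
        rintro ⟨j, hj⟩
        exact hy j hj
  refine ⟨n, ?_⟩
  rw [zpow_natCast, key n le_rfl, h2]

theorem perm2 (π : Perm (Fin 2)) : π.SameCycle 0 1 ↔ ¬ (π * swap 0 1).SameCycle 0 1 := by
  revert π
  decide

theorem two : S_TWO := by
  intro _ _ _ V _ _ ν hν M x y b η hxy hb hbxy hη hs
  classical
  set a : Fin 2 → V := ![x, y] with ha
  have hai : Function.Injective a := by
    intro i j h
    fin_cases i <;> fin_cases j <;> simp_all
  have hc : Function.Injective (Fin.append a b) := by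
    rw [Fin.append_injective_iff]
    refine ⟨hai, hb, fun i j => ?_⟩
    fin_cases i
    · exact (hbxy j).1.symm
    · exact (hbxy j).2.symm
  have hM : (0 : ℝ) < (M.factorial : ℝ) := by exact_mod_cast Nat.factorial_pos M
  set F : Perm V → ℝ := fun g => if g.SameCycle x y then 1 else 0 with hF
  have hF0 : ∀ g, 0 ≤ F g := by intro g; simp only [hF]; split_ifs <;> norm_num
  have hF1 : ∀ g, |F g| ≤ 1 := by intro g; simp only [hF]; split_ifs <;> norm_num
  have hcard : ∀ t : ℝ, ∑ _θ : Perm (Fin M), t = (M.factorial : ℝ) * t := by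
    intro t
    rw [Finset.sum_const, Finset.card_univ, Fintype.card_perm, Fintype.card_fin, nsmul_eq_mul]
  have h1 := mean_avg ν hb hη hs F hF1
  have hind : ∀ g : Perm V, F g = if (ret 2 a g).SameCycle 0 1 then 1 else 0 := by
    intro g
    have := same_of_ret hai g 0 1
    simp only [hF]
    by_cases h : g.SameCycle x y
    · rw [if_pos h, if_pos (this.2 h)]
    · rw [if_neg h, if_neg (fun h' => h (this.1 h'))]
  have key : ∀ g : Perm V, 1 / 2 + 1 / 2 * (if Arc b x y g then (1 : ℝ) else 0) -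
      1 / 2 * (if ∀ j, ¬ g.SameCycle x (b j) then (1 : ℝ) else 0) -
      1 / 2 * (if ∀ j, ¬ g.SameCycle y (b j) then (1 : ℝ) else 0) ≤
      (∑ θ : Perm (Fin M), F (EE b hb θ * g)) / (M.factorial : ℝ) := by
    intro g
    have n0 : 0 ≤ (∑ θ : Perm (Fin M), F (EE b hb θ * g)) / (M.factorial : ℝ) :=
      div_nonneg (Finset.sum_nonneg fun θ _ => hF0 _) hM.le
    have i1 : (0 : ℝ) ≤ (if ∀ j, ¬ g.SameCycle x (b j) then (1 : ℝ) else 0) := by
      split_ifs <;> norm_num
    have i2 : (0 : ℝ) ≤ (if ∀ j, ¬ g.SameCycle y (b j) then (1 : ℝ) else 0) := by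
      split_ifs <;> norm_num
    have i3 : (if Arc b x y g then (1 : ℝ) else 0) ≤ 1 := by split_ifs <;> norm_num
    have hone : (∀ θ : Perm (Fin M), (EE b hb θ * g).SameCycle x y) →
        (∑ θ : Perm (Fin M), F (EE b hb θ * g)) / (M.factorial : ℝ) = 1 := by
      intro h
      rw [div_eq_one_iff_eq hM.ne']
      have : ∀ θ : Perm (Fin M), F (EE b hb θ * g) = 1 := fun θ => if_pos (h θ)
      rw [Finset.sum_congr rfl fun θ _ => this θ, hcard, mul_one]
    by_cases hA : Arc b x y g
    · rw [hone fun θ => arc_left hb (fun j => (hbxy j).2) hA θ]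
      linarith
    by_cases hA' : Arc b y x g
    · rw [hone fun θ => (arc_left hb (fun j => (hbxy j).1) hA' θ).symm]
      linarith
    rw [if_neg hA]
    by_cases hx : ∀ j, ¬ g.SameCycle x (b j)
    · rw [if_pos hx]
      linarith
    by_cases hy : ∀ j, ¬ g.SameCycle y (b j)
    · rw [if_pos hy]
      linarith
    rw [if_neg hx, if_neg hy]
    push Not at hx hy
    -- a fixed point of the induced permutation has no marked point
    have hfix : ∀ i : Fin 2, (∃ j, g.SameCycle (a i) (b j)) →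
        ret (2 + M) (Fin.append a b) g (Fin.castAdd M i) ≠ Fin.castAdd M i := by
      rintro i ⟨j, hj⟩ h
      have h2 : (ret (2 + M) (Fin.append a b) g).SameCycle (Fin.castAdd M i) (Fin.natAdd 2 j) := by
        rw [same_of_ret hc, Fin.append_left, Fin.append_right]
        exact hj
      have h3 := (Perm.SameCycle.eq_of_left h2 h)
      have h4 := congrArg Fin.val h3
      simp only [Fin.val_castAdd, Fin.val_natAdd] at h4
      have := i.2
      omega
    obtain ⟨p, hp⟩ : ∃ p : Fin M, ret (2 + M) (Fin.append a b) g (Fin.castAdd M 0) =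
        Fin.natAdd 2 p := by
      rcases next_of hc g 0 with ⟨j, hj, hj'⟩ | h
      · exfalso
        fin_cases j
        · exact hfix 0 hx hj'
        · exact hA hj
      · exact h
    obtain ⟨q, hq⟩ : ∃ q : Fin M, ret (2 + M) (Fin.append a b) g (Fin.castAdd M 1) =
        Fin.natAdd 2 q := by
      rcases next_of hc g 1 with ⟨j, hj, hj'⟩ | h
      · exfalso
        fin_cases j
        · exact hA' hj
        · exact hfix 1 hy hj'
      · exact h
    have h5 : ∀ θ : Perm (Fin M), F (EE b hb (θ * swap p q) * g) = 1 - F (EE b hb θ * g) := by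
      intro θ
      rw [hind, hind, phi_swap hc hb g θ 0 1 p q hp hq]
      have := perm2 (ret 2 a (EE b hb θ * g))
      by_cases h : (ret 2 a (EE b hb θ * g)).SameCycle 0 1
      · rw [if_pos h, if_neg (this.1 h)]; norm_num
      · rw [if_neg h, if_pos (not_not.1 fun h' => h (this.2 h'))]; norm_num
    have h6 : ∑ θ : Perm (Fin M), F (EE b hb θ * g) =
        (M.factorial : ℝ) - ∑ θ : Perm (Fin M), F (EE b hb θ * g) := by
      calc ∑ θ : Perm (Fin M), F (EE b hb θ * g)
          = ∑ θ : Perm (Fin M), F (EE b hb (θ * swap p q) * g) :=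
            (Equiv.sum_comp (Equiv.mulRight (swap p q)) (fun θ => F (EE b hb θ * g))).symm
        _ = _ := by
            rw [Finset.sum_congr rfl fun θ _ => h5 θ, Finset.sum_sub_distrib, hcard, mul_one]
    have h7 : ∑ θ : Perm (Fin M), F (EE b hb θ * g) = (M.factorial : ℝ) / 2 := by linarith
    rw [h7]
    have h8 : (M.factorial : ℝ) / 2 / (M.factorial : ℝ) = 1 / 2 := by field_simp
    rw [h8]
    norm_num
  have h2 : ∑ g, ν g * (1 / 2 + 1 / 2 * (if Arc b x y g then (1 : ℝ) else 0) -
      1 / 2 * (if ∀ j, ¬ g.SameCycle x (b j) then (1 : ℝ) else 0) -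
      1 / 2 * (if ∀ j, ¬ g.SameCycle y (b j) then (1 : ℝ) else 0)) ≤
      ∑ g, ν g * ((∑ θ : Perm (Fin M), F (EE b hb θ * g)) / (M.factorial : ℝ)) :=
    Finset.sum_le_sum fun g _ => mul_le_mul_of_nonneg_left (key g) (hν.nn g)
  have h3 : ∑ g, ν g * (1 / 2 + 1 / 2 * (if Arc b x y g then (1 : ℝ) else 0) -
      1 / 2 * (if ∀ j, ¬ g.SameCycle x (b j) then (1 : ℝ) else 0) -
      1 / 2 * (if ∀ j, ¬ g.SameCycle y (b j) then (1 : ℝ) else 0)) =
      1 / 2 + 1 / 2 * Pr ν (Arc b x y) - 1 / 2 * Pr ν (fun g => ∀ j, ¬ g.SameCycle x (b j)) -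
        1 / 2 * Pr ν (fun g => ∀ j, ¬ g.SameCycle y (b j)) := by
    rw [Pr_eq, Pr_eq, Pr_eq]
    rw [Finset.mul_sum, Finset.mul_sum, Finset.mul_sum]
    have : (1 / 2 : ℝ) = ∑ g, ν g * (1 / 2) := by rw [← Finset.sum_mul, hν.one, one_mul]
    calc _ = ∑ g, (ν g * (1 / 2) + 1 / 2 * (ν g * (if Arc b x y g then (1 : ℝ) else 0)) -
        1 / 2 * (ν g * (if ∀ j, ¬ g.SameCycle x (b j) then (1 : ℝ) else 0)) -
        1 / 2 * (ν g * (if ∀ j, ¬ g.SameCycle y (b j) then (1 : ℝ) else 0))) :=
          Finset.sum_congr rfl fun g _ => by ring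
      _ = _ := by
          rw [Finset.sum_sub_distrib, Finset.sum_sub_distrib, Finset.sum_add_distrib, ← this]
  have h4 : ∑ g, ν g * F g = Pr ν (fun g => g.SameCycle x y) := (Pr_eq ν _).symm
  rw [h3] at h2
  rw [h4] at h1
  rw [abs_le] at h1
  linarith [h1.1, h1.2]

end

end Pool.Agent.Helper95K9.SM
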