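import Pool.Agent.TH268.PD.Core
import Pool.Agent.TH268.PD.TopLip
import Pool.Agent.Y998.ST.Defs

/-!
# The dynamics of the cycles of random stirring: definitions and leaves

`ret k c g` (Pool.Agent.TH268.PD.Core) is the permutation of `Fin k` induced by `g` on the points `c`:
see `ret_spec`. `top u i` is the `i`-th largest value of the family `u`, `frac g` is the family of the
lengths of the cycles of `g` divided by the number of points.
-/

set_option autoImplicit false
set_option linter.unusedVariables false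

namespace Pool.Agent.Helper95K9.SM

open Finset Equiv
open Pool.Agent.TH268.PD (ret top frac)
open Pool.Agent.Y998.ST (stirLaw nnRate totalRate)

section defs

variable {V : Type} [Fintype V] [DecidableEq V]

/-- the change of the law `ν` under multiplication by `h` -/
noncomputable def NNu (ν : Perm V → ℝ) (h : Perm V) : ℝ := ∑ g, |ν (h⁻¹ * g) - ν g|

/-- a probability on the permutations -/
structure IsProb (ν : Perm V → ℝ) : Prop where
  nn : ∀ g, 0 ≤ ν g
  one : ∑ g, ν g = 1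

open Classical in
/-- the probability of an event -/
noncomputable def Pr (ν : Perm V → ℝ) (E : Perm V → Prop) : ℝ :=
  ∑ g, ν g * (if E g then 1 else 0)

/-- the permutation induced on the points `c` is uniform up to `ε` -/
def Mix (ν : Perm V → ℝ) {k : ℕ} (c : Fin k → V) (ε : ℝ) : Prop :=
  ∀ G : Perm (Fin k) → ℝ, (∀ π, |G π| ≤ 1) →
    |∑ g, ν g * G (ret k c g) - (∑ π, G π) / (k.factorial : ℝ)| ≤ ε

/-- going from `x` along its cycle one comes to `y` (after at least one step) before all the points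
`b` -/
def Arc {M : ℕ} (b : Fin M → V) (x y : V) (g : Perm V) : Prop :=
  ∃ n : ℕ, 1 ≤ n ∧ (g ^ n) x = y ∧ ∀ p, 1 ≤ p → p < n → (g ^ p) x ∉ Set.range b

/-- the law of the product of `n` independent transpositions with the law `ρ` -/
noncomputable def wordLaw (ρ : V → V → ℝ) (n : ℕ) (h : Perm V) : ℝ :=
  ∑ w : Fin n → V × V, (∏ i, ρ (w i).1 (w i).2) *
    (if (List.ofFn fun i => swap (w i).1 (w i).2).prod = h then 1 else 0)

/-- the product `s (j - 1) * ... * s 0` -/
def run {G : Type} [Monoid G] {r : ℕ} (s : Fin r → G) : ℕ → G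
  | 0 => 1
  | j + 1 => (if h : j < r then s ⟨j, h⟩ else 1) * run s j

/-- the mean of `F (η 0, η (u 0), η (u 0 + u 1), ...)` for random stirring `η` with the rates `J` and
`η 0` with the law `ν` -/
noncomputable def pathMean (J : V → V → ℝ) (ν : Perm V → ℝ) {r : ℕ} (u : Fin r → ℝ)
    (F : (Fin (r + 1) → Perm V) → ℝ) : ℝ :=
  ∑ g, ν g * ∑ h : Fin r → Perm V, (∏ i, stirLaw J (u i) (h i)) * F (fun j => run h j * g)

/-- the product of the transpositions of `x q` and `y q`, `q` in the list `l` -/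
def word {K : ℕ} (x y : Fin K → V) (l : List (Fin K)) : Perm V :=
  (l.map fun q => swap (x q) (y q)).prod

end defs

/-- a bounded Lipschitz function of a path of ordered sequences -/
structure Lips {R m : ℕ} (f : (Fin R → Fin m → ℝ) → ℝ) (C Λ : ℝ) : Prop where
  nn : 0 ≤ Λ
  bd : ∀ u, |f u| ≤ C
  lip : ∀ u v : Fin R → Fin m → ℝ, ∀ e : ℝ, 0 ≤ e → (∀ j i, |u j i - v j i| ≤ e) →
    |f u - f v| ≤ Λ * e

/-- the universal mean -/
noncomputable def UU (K N R m : ℕ) (l : Fin R → List (Fin K)) (f : (Fin R → Fin m → ℝ) → ℝ) : ℝ :=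
  (∑ π : Perm (Fin (K + K + N)), f (fun j i => top (frac (ret N (Fin.natAdd (K + K))
    (word (fun q => Fin.castAdd N (Fin.castAdd K q)) (fun q => Fin.castAdd N (Fin.natAdd K q))
      (l j) * π))) i)) / ((K + K + N).factorial : ℝ)

/-! ### First block: the induced permutation is uniform -/

/-- **[TOW]** the induced permutation in two steps.  Proof: both sides have the characterisation
`ret k b g i = j` iff for some `n ≥ 1` `(g ^ n) (b i) = b j` and `(g ^ p) (b i) ∉ range b` for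
`1 ≤ p < n` (existence `ret_spec`, uniqueness as in `FirstRet.unique`, file `TH268/PD/Ret.lean`). The
powers of `ret K c g` are the successive visits of the orbit to the points `c`. -/
def S_TOW : Prop := ∀ (V : Type) [Fintype V] [DecidableEq V] (k K : ℕ) (c : Fin K → V)
  (f : Fin k → Fin K) (g : Perm V), Function.Injective c → Function.Injective f →
  ret k (fun i => c (f i)) g = ret k f (ret K c g)

/-- **[RMUL]** right multiplication.  Proof: first `ret k b g⁻¹ = (ret k b g)⁻¹` (reverse the first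
return path), then invert `ret_spec` (2).  (Or directly as in `FirstRet.swap`.) -/
def S_RMUL : Prop := ∀ (V : Type) [Fintype V] [DecidableEq V] (k : ℕ) (b : Fin k → V) (g : Perm V)
  (i j : Fin k), Function.Injective b →
  ret k b (g * swap (b i) (b j)) = ret k b g * swap i j

/-- **[AVG]** Proof: `NNu ν (g * h) ≤ NNu ν g + NNu ν h` (see `NN_mul` in `Y998/LP/Master.lean`), and
induction over the number of the points moved by `θ` (`Equiv.Perm.card_support_swap_mul`). -/
def S_AVG : Prop := ∀ (V : Type) [Fintype V] [DecidableEq V] (ν : Perm V → ℝ) (M : ℕ)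
  (b : Fin M → V) (η : ℝ), Function.Injective b → 0 ≤ η →
  (∀ i j, NNu ν (swap (b i) (b j)) ≤ η) → ∀ (θ : Perm (Fin M)) (h : Perm V),
  (∀ j, h (b j) = b (θ j)) → (∀ v, v ∉ Set.range b → h v = v) → NNu ν h ≤ M * η

/-- **[SEP]** Proof: let `c = Fin.append a b`, `R = ret (k + M) c g`, and for `θ : Perm (Fin M)` let
`E θ : Perm V` be `θ` on the points `b` (`Equiv.Perm.viaFintypeEmbedding`), `E' θ` the same on
`Fin (k + M)` (on the last `M` elements).  By `ret_spec` (2) and `swap_induction_on`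
`ret (k + M) c (E θ * g) = E' θ * R`, and by AVG the mean of `G (ret k a g)` is, up to `M η`, the mean
over `g` of the average over `θ` of `G (ret k a (E θ * g)) = G (ret k (castAdd) (E' θ * R))` (TOW).
If no `R (castAdd i)` is a `castAdd j` (otherwise `Arc b (a i) (a j) g`), then `R (castAdd i) = natAdd
(σ i)` and `E' (swap (σ i) (σ j)) * R = R * swap (castAdd i) (castAdd j)`, so by RMUL the bijection
`θ ↦ θ * swap (σ i) (σ j)` multiplies the induced permutation by `swap i j` from the right: the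
average over `θ` is exactly the mean of `G`. -/
def S_SEP : Prop := S_TOW → S_RMUL → S_AVG → ∀ (V : Type) [Fintype V] [DecidableEq V]
  (ν : Perm V → ℝ), IsProb ν → ∀ (k M : ℕ) (a : Fin k → V) (b : Fin M → V) (η : ℝ),
  Function.Injective (Fin.append a b) → 0 ≤ η → (∀ i j, NNu ν (swap (b i) (b j)) ≤ η) →
  Mix ν a (2 * Pr ν (fun g => ∃ i j, Arc b (a i) (a j) g) + M * η)

/-- **[TWO]** Proof: as in SEP with `a = ![x, y]`, `G` the indicator of the connected permutation
(`ret_spec` (4)).  The average over `θ` of the indicator of `x ~ y` in `E θ * g` is `1` if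
`Arc b x y g` (or `Arc b y x g`), it is `1 / 2` if the next points of `{x, y, b}` after `x` and after
`y` are both in `b` (the bijection `θ ↦ θ * swap (σ 0) (σ 1)` changes `x ~ y`), and it is `≥ 0` if the
cycle of `x` or of `y` contains no `b j`.  So it is `≥ 1 / 2 + 1 / 2 [Arc b x y] - 1 / 2 [x not ~ b] -
1 / 2 [y not ~ b]` in all cases. -/
def S_TWO : Prop := S_TOW → S_RMUL → S_AVG → ∀ (V : Type) [Fintype V] [DecidableEq V]
  (ν : Perm V → ℝ), IsProb ν → ∀ (M : ℕ) (x y : V) (b : Fin M → V) (η : ℝ), x ≠ y →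
  Function.Injective b → (∀ j, b j ≠ x ∧ b j ≠ y) → 0 ≤ η →
  (∀ i j, NNu ν (swap (b i) (b j)) ≤ η) →
  Pr ν (Arc b x y) ≤ 2 * Pr ν (fun g => g.SameCycle x y) - 1 +
    Pr ν (fun g => ∀ j, ¬ g.SameCycle x (b j)) + Pr ν (fun g => ∀ j, ¬ g.SameCycle y (b j)) +
    2 * (M * η)

/-- **[NOB]** inclusion and exclusion: `[no j with x ~ b j] = ∏ j, (1 - [x ~ b j]) =
∑ S, (-1) ^ |S| [x ~ b j for all j ∈ S]` (`Finset.prod_one_sub` or `Finset.prod_add`), and
`∑ S, (-1) ^ |S| / (|S| + 1) = 1 / (M + 1)`. -/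
def S_NOB : Prop := ∀ (V : Type) [Fintype V] [DecidableEq V] (ν : Perm V → ℝ), IsProb ν →
  ∀ (M : ℕ) (x : V) (b : Fin M → V) (δ : ℝ), 0 ≤ δ →
  (∀ S : Finset (Fin M), |Pr ν (fun g => ∀ j ∈ S, g.SameCycle x (b j)) -
    1 / ((S.card : ℝ) + 1)| ≤ δ) →
  Pr ν (fun g => ∀ j, ¬ g.SameCycle x (b j)) ≤ 1 / ((M : ℝ) + 1) + 2 ^ M * δ

/-- **[ABS]** assembly of the first block: union bound over `i, j` in SEP, TWO for `i ≠ j`, and
`Arc b x x g` implies that no `b j` is in the cycle of `x` (`b j ≠ x`); NOB.  Choose `M` with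
`(2 k ^ 2 + k) 4 / (M + 1) ≤ ε / 4`, then `δ` small. -/
def S_ABS : Prop := S_TOW → S_RMUL → S_AVG → S_SEP → S_TWO → S_NOB → ∀ (k : ℕ) (ε : ℝ), 0 < ε →
  ∃ (M : ℕ) (δ : ℝ), 0 < δ ∧ ∀ (V : Type) [Fintype V] [DecidableEq V] (ν : Perm V → ℝ), IsProb ν →
  ∀ (a : Fin k → V) (b : Fin M → V), Function.Injective (Fin.append a b) →
  (∀ i j, NNu ν (swap (b i) (b j)) ≤ δ) →
  (∀ (i : Fin k) (S : Finset (Fin M)), |Pr ν (fun g => ∀ j ∈ S, g.SameCycle (a i) (b j)) -
    1 / ((S.card : ℝ) + 1)| ≤ δ) →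
  (∀ i j, i ≠ j → |Pr ν (fun g => g.SameCycle (a i) (a j)) - 1 / 2| ≤ δ) →
  Mix ν a ε

/-- **[UNI]** for a uniform permutation the induced permutation is uniform.  Proof:
`TH268.PD.unif` with `η = 0` (as in `ind_mean`, `Y998/LQ/Final.lean`), left multiplication by
`swap (c i) (c j)` is a bijection. -/
def S_UNI : Prop := ∀ (V : Type) [Fintype V] [DecidableEq V] (k : ℕ) (c : Fin k → V),
  Function.Injective c → Mix (fun _ : Perm V => 1 / ((Fintype.card V).factorial : ℝ)) c 0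

/-! ### Second block: from the induced permutations to the process of the cycle lengths -/

/-- **[SAMJ]** sampling.  Proof: `Y259.LP.t_SAMP` with `B = univ`, `k = N` (`Pool.Agent.Y259.LP.SAMP`),
for every `j` and the `1`-Lipschitz function `u ↦ min 1 (sup_i |u i - top (frac (p j)) i|)`
(`bfrac univ g = frac g`); the number of the `a` which are not injective is at most
`N ^ 2 n ^ (N - 1)` (`card_noninj`); all the values of `top (frac _)` are in `[0, 1]`. -/
def S_SAMJ : Prop := ∀ (V : Type) [Fintype V] [DecidableEq V], 0 < Fintype.card V →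
  ∀ (N R m : ℕ), 0 < N → ∀ (p : Fin R → Perm V) (f : (Fin R → Fin m → ℝ) → ℝ) (C Λ : ℝ),
  Lips f C Λ →
  |(∑ a : Fin N → V, open Classical in if Function.Injective a then
      f (fun j i => top (frac (ret N a (p j))) i) else 0) / (Fintype.card V : ℝ) ^ N -
    f (fun j i => top (frac (p j)) i)| ≤
    Λ * (R * (1 / Real.sqrt N + (N : ℝ) ^ 2 / Fintype.card V)) +
      C * ((N : ℝ) ^ 2 / Fintype.card V)

/-- **[INJ]** `K` independent pairs with the law `ρ` and `N` independent uniform points are all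
different, up to probability `(2 K + N) ^ 2 / n`: every pair of positions coincides with probability
at most `1 / n`. -/
def S_INJ : Prop := ∀ (V : Type) [Fintype V] [DecidableEq V], 0 < Fintype.card V →
  ∀ (K N : ℕ) (ρ : V → V → ℝ), (∀ x y, 0 ≤ ρ x y) → ∑ x, ∑ y, ρ x y = 1 →
  (∀ x, ∑ y, ρ x y ≤ 1 / (Fintype.card V : ℝ)) → (∀ y, ∑ x, ρ x y ≤ 1 / (Fintype.card V : ℝ)) →
  ∑ x, ρ x x ≤ 1 / (Fintype.card V : ℝ) →
  ∑ w : Fin K → V × V, ∑ a : Fin N → V, (∏ q, ρ (w q).1 (w q).2) * (open Classical in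
    if Function.Injective (Fin.append (Fin.append (fun q => (w q).1) (fun q => (w q).2)) a) then 0
    else (1 : ℝ)) ≤ (Fintype.card V : ℝ) ^ N * (((K + K + N : ℕ) : ℝ) ^ 2 / Fintype.card V)

/-- **[EXC]** Proof: replace `f` of the cycle lengths by the average over the samples `a` (SAMJ for
`p j = word (l j) * g`), restrict to the `(w, a)` with `c = append (append x y) a` injective (INJ),
there `ret N a (word x y l * g) = ret N (natAdd) (ret c (word x y l * g)) =
ret N (natAdd) (word .. l * ret c g)` (TOW, `ret_spec` (2) and induction over `l`), and the mean over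
`g` is the universal mean up to `C δ` (`Mix` for `G / C`). -/
def S_EXC : Prop := S_TOW → S_SAMJ → S_INJ → ∀ (V : Type) [Fintype V] [DecidableEq V],
  0 < Fintype.card V → ∀ (K N R m : ℕ), 0 < N → ∀ (l : Fin R → List (Fin K))
  (f : (Fin R → Fin m → ℝ) → ℝ) (C Λ : ℝ), Lips f C Λ → ∀ ρ : V → V → ℝ, (∀ x y, 0 ≤ ρ x y) →
  ∑ x, ∑ y, ρ x y = 1 → (∀ x, ∑ y, ρ x y ≤ 1 / (Fintype.card V : ℝ)) →
  (∀ y, ∑ x, ρ x y ≤ 1 / (Fintype.card V : ℝ)) → ∑ x, ρ x x ≤ 1 / (Fintype.card V : ℝ) →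
  ∀ ν : Perm V → ℝ, IsProb ν → ∀ δ : ℝ, 0 ≤ δ →
  (∀ c : Fin (K + K + N) → V, Function.Injective c → Mix ν c δ) →
  |∑ w : Fin K → V × V, (∏ q, ρ (w q).1 (w q).2) * ∑ g, ν g *
      f (fun j i => top (frac (word (fun q => (w q).1) (fun q => (w q).2) (l j) * g)) i) -
    UU K N R m l f| ≤
    Λ * (R * (1 / Real.sqrt N + (N : ℝ) ^ 2 / Fintype.card V)) +
      C * ((N : ℝ) ^ 2 / Fintype.card V) + C * δ +
      2 * C * (((K + K + N : ℕ) : ℝ) ^ 2 / Fintype.card V)

/-- **[TRU]** the law of stirring is a Poisson mixture (definition of `stirLaw`; the series converge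
since `∑ w, ∏ J / 2 = R ^ n`; `∑ h, wordLaw = 1`, `∑ h, stirLaw = 1` is `Y998.CN.law_sum`, or directly).
For small closures prove the sum of `stirLaw` again: `tsum` of `exp (-t R) (t R) ^ n / n!`. -/
def S_TRU : Prop := ∀ (V : Type) [Fintype V] [DecidableEq V] (J : V → V → ℝ), (∀ x y, 0 ≤ J x y) →
  0 < totalRate J → ∀ s : ℝ, 0 ≤ s → ∀ K0 : ℕ,
  (∀ h, 0 ≤ ∑ n ∈ range K0, Real.exp (-s) * s ^ n / (n.factorial : ℝ) *
      wordLaw (fun x y => J x y / (2 * totalRate J)) n h) ∧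
  (∀ h, ∑ n ∈ range K0, Real.exp (-s) * s ^ n / (n.factorial : ℝ) *
      wordLaw (fun x y => J x y / (2 * totalRate J)) n h ≤ stirLaw J (s / totalRate J) h) ∧
  ∑ h, stirLaw J (s / totalRate J) h = 1 ∧
  ∑ h, (stirLaw J (s / totalRate J) h - ∑ n ∈ range K0, Real.exp (-s) * s ^ n / (n.factorial : ℝ) *
      wordLaw (fun x y => J x y / (2 * totalRate J)) n h) =
    1 - ∑ n ∈ range K0, Real.exp (-s) * s ^ n / (n.factorial : ℝ)

/-- **[TAIL]** the tails of the Poisson laws, uniformly for `s ≤ S`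
(`1 - ∑ n < K0 = exp (-s) ∑' n ≥ K0, s ^ n / n! ≤ ∑' n ≥ K0, S ^ n / n!`). -/
def S_TAIL : Prop := ∀ S τ : ℝ, 0 ≤ S → 0 < τ → ∃ K0 : ℕ, ∀ s : ℝ, 0 ≤ s → s ≤ S →
  1 - ∑ n ∈ range K0, Real.exp (-s) * s ^ n / (n.factorial : ℝ) ≤ τ

/-- **[WRD]** the products of independent words.  Proof: `K = ∑ n i`, `e : (Σ i, Fin (n i)) ≃ Fin K`
(`finSigmaFinEquiv`), `L i = List.ofFn fun q => e ⟨i, q⟩`; expand the product of the sums over
`Fin (n i) → V × V` (`Finset.prod_univ_sum`, `Equiv.piCurry`). -/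
def S_WRD : Prop := ∀ (r : ℕ) (n : Fin r → ℕ), ∃ (K : ℕ) (L : Fin r → List (Fin K)),
  ∀ (V : Type) [Fintype V] [DecidableEq V] (ρ : V → V → ℝ) (F : (Fin r → Perm V) → ℝ),
  ∑ h : Fin r → Perm V, (∏ i, wordLaw ρ (n i) (h i)) * F h =
    ∑ w : Fin K → V × V, (∏ q, ρ (w q).1 (w q).2) *
      F (fun i => word (fun q => (w q).1) (fun q => (w q).2) (L i))

/-- **[LIP]** approximation by Lipschitz functions: `TH268.PD.lip_approx` for
`(Fin R → Fin m → ℝ) ≃ (Fin (R * m) → ℝ)` (`finProdFinEquiv`), or the same proof. -/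
def S_LIP : Prop := ∀ (R m : ℕ) (f : (Fin R → Fin m → ℝ) → ℝ), Continuous f → ∀ C : ℝ,
  (∀ u, |f u| ≤ C) → ∀ ε : ℝ, 0 < ε → ∃ (Λ : ℝ) (g : (Fin R → Fin m → ℝ) → ℝ), Lips g C Λ ∧
  ∀ u : Fin R → Fin m → ℝ, (∀ j i, 0 ≤ u j i ∧ u j i ≤ 1) → |f u - g u| ≤ ε

/-- **[DYN]** assembly of the second block.  Proof: `f` may be replaced by a Lipschitz function (LIP).
Take `K0` from TAIL with `τ = ε / (8 r (C + 1))`: the product of the laws `stirLaw J (s i / R) (h i)` may be
replaced by the product of the truncated sums (error `2 C r τ`, hybrid argument with TRU); expand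
(`Finset.prod_univ_sum`) into the sum over `n : Fin r → Fin K0` of `∏ exp (-s i) (s i) ^ n i / (n i)!`
times `∑ h, (∏ i, wordLaw ρ (n i) (h i)) F h`, `ρ = J / (2 R)`, `R = n λ / 2`, and use WRD and EXC with
`l j = L (j - 1) ++ ... ++ L 0` (`run` of the words is the word of the list).  `N` large, then `k` =
the maximum of the numbers `K + K + N`, `δ` small, `n₀` large.  `W s` is the sum over `n` of the Poisson
weights times `UU`. -/
def S_DYN : Prop := S_TOW → S_SAMJ → S_INJ → S_EXC → S_TRU → S_TAIL → S_WRD → S_LIP →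
  ∀ (r m : ℕ) (f : (Fin (r + 1) → Fin m → ℝ) → ℝ), Continuous f → ∀ C : ℝ, (∀ u, |f u| ≤ C) →
  ∀ S ε : ℝ, 0 ≤ S → 0 < ε → ∃ (k n₀ : ℕ) (δ : ℝ) (W : (Fin r → ℝ) → ℝ), 0 < δ ∧
  ∀ (V : Type) [Fintype V] [DecidableEq V], n₀ ≤ Fintype.card V → 0 < Fintype.card V →
  ∀ (J : V → V → ℝ) (lam : ℝ), (∀ x y, 0 ≤ J x y) → 0 < lam → (∀ x, ∑ y, J x y = lam) →
  (∀ y, ∑ x, J x y = lam) → ∑ x, J x x ≤ lam →
  ∀ ν : Perm V → ℝ, IsProb ν →
  (∀ j, j ≤ k → ∀ c : Fin j → V, Function.Injective c → Mix ν c δ) →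
  ∀ s : Fin r → ℝ, (∀ i, 0 ≤ s i ∧ s i ≤ S) →
  |pathMean J ν (fun i => s i / totalRate J) (fun p => f (fun j i => top (frac (p j)) i)) -
    W s| ≤ ε

/-- **[NNR]** the nearest neighbour rates of the torus. -/
def S_NNR : Prop := ∀ (d L : ℕ) [NeZero L], 1 ≤ d → 3 ≤ L →
  (∀ x : Fin d → ZMod L, ∑ y, nnRate d L x y = 2 * d) ∧
  (∀ y : Fin d → ZMod L, ∑ x, nnRate d L x y = 2 * d) ∧
  ∑ x : Fin d → ZMod L, nnRate d L x x = 0 ∧ totalRate (nnRate d L) = d * (L : ℝ) ^ d

end Pool.Agent.Helper95K9.SM
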