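import Pool.Agent.Helper95K9.SM.Stm

/-!
# Induced permutations: two steps, right multiplication
-/

set_option autoImplicit false
set_option linter.unusedVariables false

namespace Pool.Agent.Helper95K9.SM

open Finset Equiv
open Pool.Agent.TH268.PD (ret ret_spec FirstRet)

namespace TowL

variable {V : Type} [Fintype V] [DecidableEq V]

theorem ret_first {k : ℕ} {b : Fin k → V} (hb : Function.Injective b) (g : Perm V) (i : Fin k) :
    ∃ n, FirstRet b g i (ret k b g i) n := (ret_spec k b hb).1 g i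

theorem ret_eq {k : ℕ} {b : Fin k → V} (hb : Function.Injective b) {g : Perm V} {i j : Fin k}
    {n : ℕ} (h : FirstRet b g i j n) : ret k b g i = j := by
  obtain ⟨n', h'⟩ := ret_first hb g i
  exact (FirstRet.unique hb h' h).2

theorem steps {k K : ℕ} {c : Fin K → V} {f : Fin k → Fin K} {g : Perm V}
    (hc : Function.Injective c) : ∀ (N : ℕ), 1 ≤ N → ∀ i₀ : Fin K,
    (∀ p, 1 ≤ p → p < N → ((ret K c g) ^ p) i₀ ∉ Set.range f) →
    ∃ n, 1 ≤ n ∧ (g ^ n) (c i₀) = c (((ret K c g) ^ N) i₀) ∧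
      ∀ q, 1 ≤ q → q < n → (g ^ q) (c i₀) ∉ Set.range (fun i => c (f i)) := by
  intro N hN
  induction N, hN using Nat.le_induction with
  | base =>
    intro i₀ _
    obtain ⟨n, h1, h2, h3⟩ := ret_first hc g i₀
    refine ⟨n, h1, by rw [pow_one]; exact h2, fun q hq hqn => ?_⟩
    rintro ⟨i, hi⟩
    exact h3 q hq hqn ⟨f i, hi⟩
  | succ N hN ih =>
    intro i₀ hi₀
    obtain ⟨n, h1, h2, h3⟩ := ret_first hc g i₀
    obtain ⟨n', h1', h2', h3'⟩ := ih (ret K c g i₀) (fun p hp hpN => by
      have := hi₀ (p + 1) (by omega) (by omega)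
      rwa [pow_succ, Perm.mul_apply] at this)
    refine ⟨n' + n, by omega, ?_, fun q hq hqn => ?_⟩
    · rw [pow_add, Perm.mul_apply, h2, h2', pow_succ, Perm.mul_apply]
    · rcases lt_trichotomy q n with h | h | h
      · rintro ⟨i, hi⟩
        exact h3 q hq h ⟨f i, hi⟩
      · subst h
        rw [h2]
        rintro ⟨i, hi⟩
        have := hi₀ 1 le_rfl (by omega)
        rw [pow_one] at this
        exact this ⟨i, hc hi⟩
      · obtain ⟨q', rfl⟩ : ∃ q', q = q' + n := ⟨q - n, by omega⟩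
        rw [pow_add, Perm.mul_apply, h2]
        exact h3' q' (by omega) (by omega)

theorem right_pow {k : ℕ} {b : Fin k → V} {g : Perm V} {i j l m : Fin k} {n : ℕ}
    (h : FirstRet b g (swap i j l) m n) (hb : Function.Injective b) : ∀ p, p + 1 ≤ n →
      ((g * swap (b i) (b j)) ^ (p + 1)) (b l) = (g ^ (p + 1)) (b (swap i j l)) := by
  intro p
  induction p with
  | zero =>
    intro _
    rw [zero_add, pow_one, pow_one, Perm.mul_apply]
    congr 1
    rcases eq_or_ne l i with rfl | hli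
    · rw [swap_apply_left, swap_apply_left]
    rcases eq_or_ne l j with rfl | hlj
    · rw [swap_apply_right, swap_apply_right]
    rw [swap_apply_of_ne_of_ne (hb.ne hli) (hb.ne hlj), swap_apply_of_ne_of_ne hli hlj]
  | succ p ih =>
    intro hp
    rw [pow_succ', Perm.mul_apply, ih (by omega), Perm.mul_apply, pow_succ' g (p + 1),
      Perm.mul_apply]
    have := h.2.2 (p + 1) (by omega) (by omega)
    congr 1
    apply swap_apply_of_ne_of_ne
    · intro e; exact this ⟨i, e.symm⟩
    · intro e; exact this ⟨j, e.symm⟩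

end TowL

open TowL

/-- **[TOW]** -/
theorem tow : S_TOW := by
  intro V _ _ k K c f g hc hf
  have hcf : Function.Injective (fun i => c (f i)) := fun a b h => hf (hc h)
  refine Equiv.ext fun i => ?_
  obtain ⟨N, h1, h2, h3⟩ := ret_first hf (ret K c g) i
  obtain ⟨n, h1', h2', h3'⟩ := steps (f := f) hc N h1 (f i) h3
  rw [h2] at h2'
  exact ret_eq hcf ⟨h1', h2', h3'⟩

/-- **[RMUL]** -/
theorem rmul : S_RMUL := by
  intro V _ _ k b g i j hb
  refine Equiv.ext fun l => ?_
  obtain ⟨n, h⟩ := ret_first hb g (swap i j l)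
  have hn := h.1
  rw [Perm.mul_apply]
  refine ret_eq hb (n := n) ⟨hn, ?_, fun p hp hpn => ?_⟩
  · obtain ⟨q, rfl⟩ : ∃ q, n = q + 1 := ⟨n - 1, by omega⟩
    rw [right_pow h hb q le_rfl]
    exact h.2.1
  · obtain ⟨q, rfl⟩ : ∃ q, p = q + 1 := ⟨p - 1, by omega⟩
    rw [right_pow h hb q (by omega)]
    exact h.2.2 (q + 1) hp hpn

end Pool.Agent.Helper95K9.SM
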